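import Pool.Agent.H.MP_6fdec2_co.Frame

set_option autoImplicit false

namespace Pool.Agent.Results.MP_6fdec2_co.No

open Finset Pool.Agent.H.MP_6fdec2_co

/-- A simplicial complex on the vertex set `Fin l`. -/
structure SComplex (l : ℕ) where
  faces : Finset (Finset (Fin l))
  down : ∀ s ∈ faces, ∀ t ⊆ s, t ∈ faces
  single : ∀ i, {i} ∈ faces

/-- The hyperplane `∑_{i ∈ s} a_i x_i = 0` of `F^l`. -/
def hyp (F : Type) [Field F] {l : ℕ} (s : Finset (Fin l)) (a : Fin l → F) :
    Submodule F (Fin l → F) :=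
  LinearMap.ker (∑ i ∈ s, a i • LinearMap.proj i : (Fin l → F) →ₗ[F] F)

/-- The generalized `q`-deformation `S_Δ^q`, a set of hyperplanes of `F^l`. -/
def arr (F : Type) [Field F] {l : ℕ} (Δ : SComplex l) : Set (Submodule F (Fin l → F)) :=
  {H | ∃ s ∈ Δ.faces, s.Nonempty ∧ ∃ a : Fin l → F, (∀ i ∈ s, a i ≠ 0) ∧ H = hyp F s a}

/-- The characteristic polynomial `∑_J (-1)^{|J|} t^{dim H_J}`, the sum over all subsets `J` of
the arrangement (`H_∅` is the whole space). -/
noncomputable def chi (F : Type) [Field F] [Finite F] {l : ℕ} (Δ : SComplex l) : Polynomial ℤ :=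
  ∑ J ∈ (Set.toFinite (arr F Δ)).toFinset.powerset,
    (-1) ^ J.card * Polynomial.X ^ Module.finrank F ↥(J.inf id)

/-- The facets: the four triples of `{0,1,2,3}` and the seven lines of a Fano plane. -/
def triples : Finset (Finset (Fin 7)) :=
  {{0, 1, 2}, {0, 1, 3}, {0, 2, 3}, {1, 2, 3}, {0, 1, 4}, {2, 3, 4}, {0, 2, 5}, {1, 3, 5},
    {1, 2, 6}, {0, 3, 6}, {4, 5, 6}}

/-- The two-dimensional complex generated by these eleven triples. -/
def Δ0 : SComplex 7 where
  faces := triples.biUnion powerset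
  down s hs t ht := by
    obtain ⟨T, hT, h⟩ := mem_biUnion.1 hs
    exact mem_biUnion.2 ⟨T, hT, mem_powerset.2 (ht.trans (mem_powerset.1 h))⟩
  single := by decide +kernel

variable {F : Type} [Field F] [Fintype F] [DecidableEq F]

omit [DecidableEq F] in
open Classical in
theorem pow_dim {l : ℕ} (W : Submodule F (Fin l → F)) :
    (q F ^ 3) ^ Module.finrank F W = ∑ X : Fin 3 → Fin l → F, I (∀ r, X r ∈ W) := by
  have h1 : (Fintype.card W : ℤ) = q F ^ Module.finrank F W := by
    rw [Module.card_eq_pow_finrank (K := F)]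
    simp [q]
  have h2 : ∑ x : Fin l → F, I (x ∈ W) = Fintype.card W := by
    rw [Fintype.card_subtype, card_filter]
    simp [I]
  have h3 : ∀ X : Fin 3 → Fin l → F, I (∀ r, X r ∈ W) = ∏ r, I (X r ∈ W) := by
    intro X
    unfold I
    rw [Fintype.prod_boole]
    congr
  simp only [h3]
  rw [← Fintype.prod_sum (fun (_ : Fin 3) (x : Fin l → F) => I (x ∈ W))]
  simp only [h2, h1, prod_const, card_univ, Fintype.card_fin]
  ring

omit [DecidableEq F] in
open Classical in
theorem chi_eval {l : ℕ} (Δ : SComplex l) : (chi F Δ).eval (q F ^ 3) =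
    ∑ X : Fin 3 → Fin l → F, I (∀ H ∈ arr F Δ, ¬ ∀ r, X r ∈ H) := by
  unfold chi
  simp only [Polynomial.eval_finsetSum, Polynomial.eval_mul, Polynomial.eval_pow,
    Polynomial.eval_neg, Polynomial.eval_one, Polynomial.eval_X, pow_dim, mul_sum]
  rw [sum_comm]
  refine sum_congr rfl fun X _ => ?_
  have h1 : ∀ J : Finset (Submodule F (Fin l → F)),
      (-1) ^ J.card * I (∀ r, X r ∈ J.inf id) = ∏ H ∈ J, (- I (∀ r, X r ∈ H)) := by
    intro J
    rw [prod_neg]
    congr 1
    unfold I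
    rw [prod_boole]
    simp only [Submodule.mem_finsetInf, id]
    congr 1
    exact propext ⟨fun h H hH r => h r H hH, fun h r H hH => h H hH r⟩
  simp only [h1]
  rw [← prod_one_add]
  have h2 : ∀ H : Submodule F (Fin l → F), 1 + - I (∀ r, X r ∈ H) = I (¬ ∀ r, X r ∈ H) := by
    intro H
    rw [I_not]; ring
  simp only [h2]
  unfold I
  rw [prod_boole]
  simp only [Set.Finite.mem_toFinset]

/-- The columns indexed by `T` are linearly independent. -/
def Ind (X : Fin 3 → Fin 7 → F) (T : Finset (Fin 7)) : Prop :=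
  ∀ a : Fin 7 → F, (∀ r, ∑ i ∈ T, a i * X r i = 0) → ∀ i ∈ T, a i = 0

omit [Fintype F] [DecidableEq F] in
theorem mem_hyp (s : Finset (Fin 7)) (a x : Fin 7 → F) :
    x ∈ hyp F s a ↔ ∑ i ∈ s, a i * x i = 0 := by
  simp [hyp]

omit [Fintype F] in
theorem cond_iff (X : Fin 3 → Fin 7 → F) :
    (∀ H ∈ arr F Δ0, ¬ ∀ r, X r ∈ H) ↔ ∀ T ∈ triples, Ind X T := by
  constructor
  · intro h T hT a ha i hi
    by_contra hne
    refine h (hyp F (T.filter fun j => a j ≠ 0) a) ⟨_, mem_biUnion.2 ⟨T, hT,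
      mem_powerset.2 (filter_subset _ _)⟩, ⟨i, mem_filter.2 ⟨hi, hne⟩⟩, a,
      fun j hj => (mem_filter.1 hj).2, rfl⟩ fun r => ?_
    rw [mem_hyp, sum_filter_of_ne (fun j _ h0 => left_ne_zero_of_mul h0)]
    exact ha r
  · rintro h _ ⟨s, hs, ⟨i, hi⟩, a, ha, rfl⟩ hX
    obtain ⟨T, hT, hsT⟩ := mem_biUnion.1 hs
    have hsT' := mem_powerset.1 hsT
    have := h T hT (fun j => if j ∈ s then a j else 0) (fun r => by
      rw [← sum_subset hsT' fun j _ hj => by simp [hj]]
      exact Eq.trans (sum_congr rfl fun j hj => by simp [hj]) ((mem_hyp s a (X r)).1 (hX r)))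
      i (hsT' hi)
    simp only [hi, if_true] at this
    exact ha i hi this

def col (X : Fin 3 → Fin 7 → F) (i : Fin 7) : V F := (X 0 i, X 1 i, X 2 i)

theorem ind_iff (X : Fin 3 → Fin 7 → F) {i j k : Fin 7} (hij : i ≠ j) (hik : i ≠ k)
    (hjk : j ≠ k) : Ind X {i, j, k} ↔ D (col X i) (col X j) (col X k) ≠ 0 := by
  rw [D_ne_iff]
  have hs : ∀ f : Fin 7 → F, ∑ x ∈ ({i, j, k} : Finset (Fin 7)), f x = f i + f j + f k := by
    intro f
    rw [sum_insert (by simp [hij, hik]), sum_insert (by simp [hjk]), sum_singleton, add_assoc]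
  constructor
  · intro h a b c e
    have := h (fun x => if x = i then a else if x = j then b else c) (fun r => by
      rw [hs]
      simp only [if_true, hij.symm, hik.symm, hjk.symm, if_false]
      fin_cases r
      · exact congrArg (fun x : V F => x.1) e
      · exact congrArg (fun x : V F => x.2.1) e
      · exact congrArg (fun x : V F => x.2.2) e)
    have h1 := this i (by simp)
    have h2 := this j (by simp)
    have h3 := this k (by simp)
    simp only [if_true, hij.symm, hik.symm, hjk.symm, if_false] at h1 h2 h3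
    exact ⟨h1, h2, h3⟩
  · intro h a ha x hx
    simp only [hs] at ha
    obtain ⟨h1, h2, h3⟩ := h (a i) (a j) (a k) (Prod.ext (ha 0) (Prod.ext (ha 1) (ha 2)))
    simp only [mem_insert, mem_singleton] at hx
    rcases hx with rfl | rfl | rfl <;> assumption

theorem chi_Ntot : (chi F Δ0).eval (q F ^ 3) = Ntot F := by
  classical
  rw [chi_eval]
  let e : (Fin 3 → Fin 7 → F) → V F × V F × V F × V F × V F × V F × V F := fun X =>
    (col X 0, col X 1, col X 2, col X 3, col X 4, col X 5, col X 6)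
  have he : Function.Bijective e := by
    rw [Fintype.bijective_iff_injective_and_card]
    refine ⟨fun X Y h => ?_, by simp; ring⟩
    simp only [e, col, Prod.mk.injEq] at h
    funext r i
    fin_cases r <;> fin_cases i <;> simp [h]
  unfold Ntot Inn
  simp only [mul_sum]
  have := he.sum_comp fun p => I (D p.1 p.2.1 p.2.2.1 ≠ 0) *
    (I (D p.1 p.2.1 p.2.2.2.1 ≠ 0) * I (D p.1 p.2.2.1 p.2.2.2.1 ≠ 0) *
      I (D p.2.1 p.2.2.1 p.2.2.2.1 ≠ 0) *
    ((I (D p.1 p.2.1 p.2.2.2.2.1 ≠ 0) * I (D p.2.2.1 p.2.2.2.1 p.2.2.2.2.1 ≠ 0)) *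
      (I (D p.1 p.2.2.1 p.2.2.2.2.2.1 ≠ 0) * I (D p.2.1 p.2.2.2.1 p.2.2.2.2.2.1 ≠ 0)) *
      (I (D p.2.1 p.2.2.1 p.2.2.2.2.2.2 ≠ 0) * I (D p.1 p.2.2.2.1 p.2.2.2.2.2.2 ≠ 0)) *
      I (D p.2.2.2.2.1 p.2.2.2.2.2.1 p.2.2.2.2.2.2 ≠ 0)))
  simp only [Fintype.sum_prod_type (α₁ := V F)] at this
  refine Eq.trans (sum_congr rfl fun X _ => ?_) this
  simp only [← I_and]
  refine I_congr ?_
  rw [cond_iff]
  simp only [triples, mem_insert, mem_singleton, forall_eq_or_imp, forall_eq, e]
  rw [ind_iff X (by decide) (by decide) (by decide), ind_iff X (by decide) (by decide) (by decide),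
    ind_iff X (by decide) (by decide) (by decide), ind_iff X (by decide) (by decide) (by decide),
    ind_iff X (by decide) (by decide) (by decide), ind_iff X (by decide) (by decide) (by decide),
    ind_iff X (by decide) (by decide) (by decide), ind_iff X (by decide) (by decide) (by decide),
    ind_iff X (by decide) (by decide) (by decide), ind_iff X (by decide) (by decide) (by decide),
    ind_iff X (by decide) (by decide) (by decide)]
  simp only [and_assoc]

/-- For the complex `Δ0` no two-variable polynomial interpolates the characteristic polynomials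
of the generalized `q`-deformations, not even over the prime fields. -/
theorem result : ∃ (l : ℕ) (Δ : SComplex l), ¬ ∃ P : MvPolynomial (Fin 2) ℂ,
    ∀ (p : ℕ) [Fact p.Prime] (t : ℂ),
      Polynomial.aeval t (chi (ZMod p) Δ) = MvPolynomial.eval ![(p : ℂ), t] P := by
  refine ⟨7, Δ0, ?_⟩
  rintro ⟨P, hP⟩
  let R : Polynomial ℂ := MvPolynomial.aeval ![Polynomial.X, Polynomial.X ^ 3] P
  let G : Polynomial ℂ := (Polynomial.X ^ 3 - 1) * (Polynomial.X ^ 3 - Polynomial.X) *
    (Polynomial.X ^ 3 - Polynomial.X ^ 2) * (Polynomial.X - 1) ^ 2 * Qp Polynomial.X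
  have hR : ∀ x : ℂ, R.eval x = MvPolynomial.eval ![x, x ^ 3] P := by
    intro x
    have : (Polynomial.evalRingHom x).comp
        (MvPolynomial.aeval ![Polynomial.X, Polynomial.X ^ 3] :
          MvPolynomial (Fin 2) ℂ →ₐ[ℂ] Polynomial ℂ).toRingHom = MvPolynomial.eval ![x, x ^ 3] := by
      ext i
      · simp
      · fin_cases i <;> simp
    exact congrArg (fun f : MvPolynomial (Fin 2) ℂ →+* ℂ => f P) this
  have hG : ∀ x : ℂ, G.eval x = (x ^ 3 - 1) * (x ^ 3 - x) * (x ^ 3 - x ^ 2) * (x - 1) ^ 2 * Qp x := by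
    intro x
    simp [G, Qp]
  have key : ∀ (p : ℕ) [Fact p.Prime], R.eval (p : ℂ) = G.eval (p : ℂ) -
      ((p : ℂ) ^ 3 - 1) * ((p : ℂ) ^ 3 - p) * ((p : ℂ) ^ 3 - p ^ 2) * ((p : ℂ) - 1) ^ 5 *
        (tau (ZMod p) : ℂ) := by
    intro p _
    have hq : q (ZMod p) = p := by simp [q]
    have h1 := chi_Ntot (F := ZMod p)
    rw [Ntot_eq, hq] at h1
    have h2 := hP p ((p : ℂ) ^ 3)
    have h3 : Polynomial.aeval ((p : ℂ) ^ 3) (chi (ZMod p) Δ0) =
        (((chi (ZMod p) Δ0).eval ((p : ℤ) ^ 3) : ℤ) : ℂ) := by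
      have := Polynomial.aeval_algebraMap_apply_eq_algebraMap_eval (A := ℂ) ((p : ℤ) ^ 3)
        (chi (ZMod p) Δ0)
      simpa using this
    rw [hR, ← h2, h3, h1, hG]
    simp only [Qp]
    push_cast
    ring
  have hRG : R = G := by
    apply Polynomial.eq_of_infinite_eval_eq
    refine Set.Infinite.mono ?_
      ((Nat.infinite_setOfPred_prime.sdiff (Set.finite_singleton 2)).image
        (f := fun n : ℕ => (n : ℂ)) Nat.cast_injective.injOn)
    rintro _ ⟨p, ⟨hp, hp2⟩, rfl⟩
    have : Fact p.Prime := ⟨hp⟩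
    have h2 : (2 : ZMod p) ≠ 0 := by
      intro h
      have : ((2 : ℕ) : ZMod p) = 0 := by exact_mod_cast h
      rw [ZMod.natCast_eq_zero_iff] at this
      exact hp2 ((Nat.prime_dvd_prime_iff_eq hp Nat.prime_two).1 this)
    have := key p
    rw [tau_odd h2] at this
    simpa using this
  have h2 := key 2
  have ht : tau (ZMod 2) = 1 := by decide
  rw [hRG, ht] at h2
  have h3 : (168 : ℂ) = 0 := by
    push_cast at h2
    linear_combination h2
  norm_num at h3

end Pool.Agent.Results.MP_6fdec2_co.No
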